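import Pool.Agent.H57.SC.Targets

/-! MP_eb32d7_co, strong colouring for maximum degree two, module GB: a good block -/

set_option autoImplicit false

namespace Pool.Agent.H71.SC

open Finset Pool.Agent.H57.SC

namespace GBaux

variable {W C B : Type} [Fintype W] [DecidableEq W] [Fintype C] [DecidableEq C] [Fintype B]
  [DecidableEq B] {cyc : W → C} {blk : W → B} {adj : W → W → Prop} {Q Z : Finset B} {f : C → W}

/-- a marked vertex different from the centre is allowed -/
theorem al_marked (hs : Sys cyc blk adj) {c : C} (hal : Al cyc blk adj Q c (f c)) {u : W}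
    (hu : cyc u = c) (hq : blk u ∈ Q) (hne : u ≠ f c) : Al cyc blk adj Q c u := by
  obtain ⟨-, h1, h2⟩ := hal
  have hmu : Mk cyc blk Q c u := ⟨hu, hq⟩
  have hau : adj (f c) u := by
    rcases h1 u hmu with h | h
    · exact absurd h.symm hne
    · exact h
  have hfc : ∀ p, Mk cyc blk Q c p → p ≠ u → f c = p := by
    intro p hp hpu
    rcases h2 p u hp hmu hpu with h | h
    · exact h
    · exact absurd h.symm hne
  refine ⟨hu, fun p hp => ?_, fun p q hp hq' hpq => ?_⟩
  · by_cases hpu : p = u
    · exact Or.inl hpu.symm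
    · right
      have h := hfc p hp hpu
      rw [h] at hau
      exact hs.symm _ _ hau
  · by_contra hcon
    push Not at hcon
    obtain ⟨h3, h4⟩ := hcon
    exact hpq ((hfc p hp (Ne.symm h3)).symm.trans (hfc q hq' (Ne.symm h4)))

theorem f_inj (hst : St cyc blk adj Q f) : Function.Injective f := by
  intro c c' h
  rw [← (hst.al c).1, ← (hst.al c').1, h]

/-- the sum of the numbers of centres -/
theorem sum_cn (blk : W → B) (f : C → W) (T : Finset B) :
    ∑ b ∈ T, cn blk f b = (univ.filter (fun c => blk (f c) ∈ T)).card := by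
  rw [Finset.card_eq_sum_card_fiberwise (f := fun c => blk (f c)) (t := T)]
  · refine Finset.sum_congr rfl fun b hb => ?_
    unfold cn
    congr 1
    ext c
    simp only [mem_filter, mem_univ, true_and]
    constructor
    · intro h
      exact ⟨h ▸ hb, h⟩
    · intro h
      exact h.2
  · intro c hc
    exact (mem_filter.1 hc).2

theorem sum_dem (Q Z : Finset B) : ∑ b ∈ Z, dem Q b = Z.card + (Z ∩ Q).card := by
  have h : ∀ b ∈ Z, dem Q b = 1 + if b ∈ Q then 1 else 0 := by
    intro b _
    unfold dem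
    split_ifs <;> rfl
  rw [Finset.sum_congr rfl h, Finset.sum_add_distrib, Finset.sum_const, smul_eq_mul, mul_one,
    Finset.sum_ite_mem, Finset.sum_const, smul_eq_mul, mul_one]

/-- the number of cycles with centre outside `Z` -/
theorem out_card {d : ℕ} (hcard : Fintype.card C = Fintype.card B + d)
    (hcn : ∀ b ∈ Z, cn blk f b = dem Q b) :
    (univ.filter (fun c => blk (f c) ∉ Z)).card + Z.card + (Z ∩ Q).card = Fintype.card B + d := by
  have h1 := sum_cn blk f Z
  rw [Finset.sum_congr rfl hcn, sum_dem] at h1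
  have h2 := Finset.card_filter_add_card_filter_not (s := (univ : Finset C))
    (fun c => blk (f c) ∈ Z)
  rw [card_univ, hcard] at h2
  omega

/-- the number of non centres in a block of `Q` -/
theorem non_centres (hs : Sys cyc blk adj) (hst : St cyc blk adj Q f) {b : B} (hb : b ∈ Q) :
    (univ.filter (fun w => blk w = b ∧ ∀ c, w ≠ f c)).card ≤ 2 := by
  have h4 := hs.four b
  have h2 : 2 ≤ cn blk f b := by
    have := hst.dm b
    unfold dem at this
    rw [if_pos hb] at this
    exact this
  have h3 : cn blk f b = ((univ.filter (fun c => blk (f c) = b)).image f).card := by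
    rw [Finset.card_image_of_injective _ (f_inj hst)]
    rfl
  have h5 : Disjoint ((univ.filter (fun c => blk (f c) = b)).image f)
      (univ.filter (fun w => blk w = b ∧ ∀ c, w ≠ f c)) := by
    rw [Finset.disjoint_left]
    intro w hw hw'
    obtain ⟨c, -, rfl⟩ := mem_image.1 hw
    exact (mem_filter.1 hw').2.2 c rfl
  have h6 : (univ.filter (fun c => blk (f c) = b)).image f ∪
      univ.filter (fun w => blk w = b ∧ ∀ c, w ≠ f c) ⊆ univ.filter (fun w => blk w = b) := by
    intro w hw
    rcases mem_union.1 hw with h | h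
    · obtain ⟨c, hc, rfl⟩ := mem_image.1 h
      exact mem_filter.2 ⟨mem_univ _, (mem_filter.1 hc).2⟩
    · exact mem_filter.2 ⟨mem_univ _, (mem_filter.1 h).2.1⟩
  have h7 := Finset.card_le_card h6
  rw [Finset.card_union_of_disjoint h5] at h7
  omega

/-- the number of the cycles with centre outside `Z` having a marked vertex which is not the
centre -/
theorem out2_card (hs : Sys cyc blk adj) (hst : St cyc blk adj Q f)
    (hZ : ∀ c x, Al cyc blk adj Q c x → blk x ∈ Z → blk (f c) ∈ Z) (T : Finset C)
    (hT : ∀ c ∈ T, blk (f c) ∉ Z ∧ ∃ u, cyc u = c ∧ blk u ∈ Q ∧ u ≠ f c) :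
    T.card ≤ 2 * (Q \ Z).card := by
  have huE : ∀ c, ∃ u, c ∈ T → cyc u = c ∧ blk u ∈ Q ∧ u ≠ f c := by
    intro c
    by_cases hc : c ∈ T
    · obtain ⟨u, hu⟩ := (hT c hc).2
      exact ⟨u, fun _ => hu⟩
    · exact ⟨f c, fun h => absurd h hc⟩
  choose u hu using huE
  have h1 : T.card = (T.image u).card := by
    refine (Finset.card_image_of_injOn ?_).symm
    intro c hc c' hc' h
    have e1 := (hu c hc).1
    have e2 := (hu c' hc').1
    rw [← e1, ← e2]
    exact congrArg cyc h
  have h2 : T.image u ⊆ univ.filter (fun w => blk w ∈ Q \ Z ∧ ∀ c, w ≠ f c) := by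
    intro w hw
    obtain ⟨c, hc, rfl⟩ := mem_image.1 hw
    obtain ⟨a1, a2, a3⟩ := hu c hc
    refine mem_filter.2 ⟨mem_univ _, mem_sdiff.2 ⟨a2, fun h => (hT c hc).1 ?_⟩, fun c' h => ?_⟩
    · exact hZ c _ (al_marked hs (hst.al c) a1 a2 a3) h
    · apply a3
      have e : c' = c := by
        rw [← (hst.al c').1, ← h, a1]
      rw [h, e]
  have h3 : (univ.filter (fun w => blk w ∈ Q \ Z ∧ ∀ c, w ≠ f c)).card ≤ 2 * (Q \ Z).card := by
    rw [Finset.card_eq_sum_card_fiberwise (f := blk) (t := Q \ Z)
      (fun w hw => (mem_filter.1 hw).2.1)]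
    have h4 : ∀ b ∈ Q \ Z, ((univ.filter (fun w => blk w ∈ Q \ Z ∧ ∀ c, w ≠ f c)).filter
        (fun w => blk w = b)).card ≤ 2 := by
      intro b hb
      refine (Finset.card_le_card ?_).trans (non_centres hs hst (mem_sdiff.1 hb).1)
      intro w hw
      obtain ⟨a1, a2⟩ := mem_filter.1 hw
      exact mem_filter.2 ⟨mem_univ _, a2, (mem_filter.1 a1).2.2⟩
    refine (Finset.sum_le_sum h4).trans ?_
    rw [Finset.sum_const, smul_eq_mul, mul_comm]
  rw [h1]
  exact (Finset.card_le_card h2).trans h3

end GBaux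

open GBaux

theorem pf_gb (us : T_US) (ul : T_UL) : T_GB := by
  classical
  intro W C B _ _ _ _ _ _ cyc blk adj hs Q Z f d hst hcard hQ hZ hcn
  by_contra hno
  push Not at hno
  have hul := (ul W C B cyc blk adj hs Q f hst).1
  have hout := out_card hcard hcn
  have hmapU : ∀ w ∈ univ.filter (fun w => Us cyc blk adj Q f w ∧ blk (f (cyc w)) ∉ Z),
      blk w ∈ univ \ Z := by
    intro w hw
    obtain ⟨-, a1, a2⟩ := mem_filter.1 hw
    exact mem_sdiff.2 ⟨mem_univ _, fun h => a2 (hZ _ w (hul w a1) h)⟩
  -- upper bound for the number of usable vertices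
  have hup : (univ.filter (fun w => Us cyc blk adj Q f w ∧ blk (f (cyc w)) ∉ Z)).card ≤
      3 * (univ \ Z).card + (Q \ Z).card := by
    rw [Finset.card_eq_sum_card_fiberwise (f := blk) (t := univ \ Z) hmapU]
    have h1 : ∀ b ∈ univ \ Z, ((univ.filter (fun w => Us cyc blk adj Q f w ∧
        blk (f (cyc w)) ∉ Z)).filter (fun w => blk w = b)).card ≤ 3 + if b ∈ Q then 1 else 0 := by
      intro b hb
      have hbZ := (mem_sdiff.1 hb).2
      have hsub : (univ.filter (fun w => Us cyc blk adj Q f w ∧
          blk (f (cyc w)) ∉ Z)).filter (fun w => blk w = b) ⊆ univ.filter (fun w => blk w = b) :=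
        fun w hw => mem_filter.2 ⟨mem_univ _, (mem_filter.1 hw).2⟩
      have hle := Finset.card_le_card hsub
      have h4 := hs.four b
      split_ifs with hbQ
      · omega
      · by_contra hcon
        have h5 : (univ.filter (fun w => blk w = b)).card = 4 := by omega
        obtain ⟨w, hw, hnw⟩ := hno b hbZ hbQ h5
        have h6 := Finset.eq_of_subset_of_card_le hsub (by omega)
        have h7 : w ∈ univ.filter (fun w => blk w = b) := mem_filter.2 ⟨mem_univ _, hw⟩
        rw [← h6] at h7
        exact hnw (mem_filter.1 (mem_filter.1 h7).1).2.1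
    refine (Finset.sum_le_sum h1).trans ?_
    rw [Finset.sum_add_distrib, Finset.sum_const, Finset.sum_ite_mem, Finset.sum_const,
      smul_eq_mul, smul_eq_mul, mul_one, mul_comm]
    have h2 : (univ \ Z) ∩ Q = Q \ Z := by
      ext b
      simp only [mem_inter, mem_sdiff, mem_univ, true_and]
      exact and_comm
    rw [h2]
  -- lower bound
  have hlow : 3 * (univ.filter (fun c => blk (f c) ∉ Z)).card ≤
      (univ.filter (fun w => Us cyc blk adj Q f w ∧ blk (f (cyc w)) ∉ Z)).card +
      ((univ.filter (fun c => blk (f c) ∉ Z)).filter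
        (fun c => ∃ u, cyc u = c ∧ blk u ∈ Q ∧ u ≠ f c)).card := by
    rw [Finset.card_eq_sum_card_fiberwise (f := cyc) (t := univ.filter (fun c => blk (f c) ∉ Z))
      (s := univ.filter (fun w => Us cyc blk adj Q f w ∧ blk (f (cyc w)) ∉ Z))
      (fun w hw => mem_filter.2 ⟨mem_univ _, (mem_filter.1 hw).2.2⟩)]
    rw [Finset.card_filter (fun c => ∃ u, cyc u = c ∧ blk u ∈ Q ∧ u ≠ f c),
      ← Finset.sum_add_distrib, mul_comm, ← smul_eq_mul, ← Finset.sum_const]
    refine Finset.sum_le_sum fun c hc => ?_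
    have hc' := (mem_filter.1 hc).2
    obtain ⟨h2, h3⟩ := us W C B cyc blk adj hs Q f c (hst.al c)
    have e : Nat.card {w // cyc w = c ∧ Us cyc blk adj Q f w} =
        ((univ.filter (fun w => Us cyc blk adj Q f w ∧ blk (f (cyc w)) ∉ Z)).filter
          (fun w => cyc w = c)).card := by
      rw [Nat.card_eq_fintype_card, Fintype.card_subtype]
      congr 1
      ext w
      simp only [mem_filter, mem_univ, true_and]
      constructor
      · rintro ⟨a1, a2⟩
        exact ⟨⟨a2, by rw [a1]; exact hc'⟩, a1⟩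
      · rintro ⟨⟨a1, -⟩, a2⟩
        exact ⟨a2, a1⟩
    rw [e] at h2 h3
    split_ifs with hex
    · omega
    · push Not at hex
      have := h3 hex
      omega
  have h2 := out2_card hs hst hZ ((univ.filter (fun c => blk (f c) ∉ Z)).filter
        (fun c => ∃ u, cyc u = c ∧ blk u ∈ Q ∧ u ≠ f c)) (by
    intro c hc
    obtain ⟨a1, a2⟩ := mem_filter.1 hc
    exact ⟨(mem_filter.1 a1).2, a2⟩)
  have h3 : (univ \ Z).card + Z.card = Fintype.card B := by
    rw [Finset.card_sdiff_add_card_eq_card (subset_univ Z), card_univ]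
  have h4 : (Q \ Z).card + (Z ∩ Q).card = Q.card := by
    rw [Finset.inter_comm]
    exact Finset.card_sdiff_add_card_inter Q Z
  omega

end Pool.Agent.H71.SC
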